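import Pool.Agent.Lib.MP_ae7657_co.Data

/-! Kernel checks of seven Fourier blocks. -/

namespace Pool.Agent.Lib.MP_ae7657_co

theorem blk0 : chol 316 (rowsN tb 0 rowsE) = true := by decide +kernel
theorem blk1 : chol 316 (rowsN tb 1 rowsE) = true := by decide +kernel
theorem blk2 : chol 316 (rowsN tb 2 rowsE) = true := by decide +kernel
theorem blk3 : chol 316 (rowsN tb 3 rowsE) = true := by decide +kernel
theorem blk4 : chol 316 (rowsN tb 4 rowsE) = true := by decide +kernel
theorem blk5 : chol 316 (rowsN tb 5 rowsE) = true := by decide +kernel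
theorem blk6 : chol 316 (rowsN tb 6 rowsE) = true := by decide +kernel

end Pool.Agent.Lib.MP_ae7657_co
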