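import Pool.Agent.Lib.MP_ae7657_co.Data

/-! Kernel checks of seven Fourier blocks. -/

namespace Pool.Agent.Lib.MP_ae7657_co

theorem blk7 : chol 316 (rowsN tb 7 rowsE) = true := by decide +kernel
theorem blk8 : chol 316 (rowsN tb 8 rowsE) = true := by decide +kernel
theorem blk9 : chol 316 (rowsN tb 9 rowsE) = true := by decide +kernel
theorem blk10 : chol 316 (rowsN tb 10 rowsE) = true := by decide +kernel
theorem blk11 : chol 316 (rowsN tb 11 rowsE) = true := by decide +kernel
theorem blk12 : chol 316 (rowsN tb 12 rowsE) = true := by decide +kernel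
theorem blk13 : chol 316 (rowsN tb 13 rowsE) = true := by decide +kernel

end Pool.Agent.Lib.MP_ae7657_co
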