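import Pool.Agent.Lib.MP_ae7657_co.Data

/-! Kernel checks of seven Fourier blocks. -/

namespace Pool.Agent.Lib.MP_ae7657_co

theorem blk14 : chol 316 (rowsN tb 14 rowsE) = true := by decide +kernel
theorem blk15 : chol 316 (rowsN tb 15 rowsE) = true := by decide +kernel
theorem blk16 : chol 316 (rowsN tb 16 rowsE) = true := by decide +kernel
theorem blk17 : chol 316 (rowsN tb 17 rowsE) = true := by decide +kernel
theorem blk18 : chol 316 (rowsN tb 18 rowsE) = true := by decide +kernel
theorem blk19 : chol 316 (rowsN tb 19 rowsE) = true := by decide +kernel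
theorem blk20 : chol 316 (rowsN tb 20 rowsE) = true := by decide +kernel

end Pool.Agent.Lib.MP_ae7657_co
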