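import Pool.Agent.Lib.MP_ae7657_co.Data

/-! Kernel checks of seven Fourier blocks. -/

namespace Pool.Agent.Lib.MP_ae7657_co

theorem blk21 : chol 316 (rowsN tb 21 rowsE) = true := by decide +kernel
theorem blk22 : chol 316 (rowsN tb 22 rowsE) = true := by decide +kernel
theorem blk23 : chol 316 (rowsN tb 23 rowsE) = true := by decide +kernel
theorem blk24 : chol 316 (rowsN tb 24 rowsE) = true := by decide +kernel
theorem blk25 : chol 316 (rowsN tb 25 rowsE) = true := by decide +kernel
theorem blk26 : chol 316 (rowsN tb 26 rowsE) = true := by decide +kernel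
theorem blk27 : chol 316 (rowsN tb 27 rowsE) = true := by decide +kernel

end Pool.Agent.Lib.MP_ae7657_co
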