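import Pool.Agent.Lib.MP_ae7657_co.Data

/-! Kernel checks of seven Fourier blocks. -/

namespace Pool.Agent.Lib.MP_ae7657_co

theorem blk28 : chol 316 (rowsN tb 28 rowsE) = true := by decide +kernel
theorem blk29 : chol 316 (rowsN tb 29 rowsE) = true := by decide +kernel
theorem blk30 : chol 316 (rowsN tb 30 rowsE) = true := by decide +kernel
theorem blk31 : chol 316 (rowsN tb 31 rowsE) = true := by decide +kernel
theorem blk32 : chol 316 (rowsN tb 32 rowsE) = true := by decide +kernel
theorem blk33 : chol 316 (rowsN tb 33 rowsE) = true := by decide +kernel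
theorem blk34 : chol 316 (rowsN tb 34 rowsE) = true := by decide +kernel

end Pool.Agent.Lib.MP_ae7657_co
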