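import Mathlib

/-! A kernel checker for near positivity of an integer quadratic form given by packed rows. -/

noncomputable section
namespace Pool.Agent.Lib.MP_ae7657_co

def frc (n : ℕ) (k : ℕ → Bool) : Bool := Nat.rec (k 0) (fun m _ => k m.succ) n

lemma frc_eq (n : ℕ) (k : ℕ → Bool) : frc n k = k n := by cases n <;> rfl

lemma frc_ex {n : ℕ} {k : ℕ → Bool} (h : frc n k = true) : ∃ a, n = a ∧ k a = true := ⟨n, rfl, frc_eq n k ▸ h⟩

def nsq (a : ℕ) (f : ℕ) : ℕ → ℕ :=
  Nat.rec (fun s => s) (fun _ ih s => Nat.rec 0 (fun m _ => ih (Nat.div (Nat.add m.succ (Nat.div a m.succ)) 2)) s) f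

def upd (s : ℕ) (rows : List ℕ) : ℕ → (ℕ → List ℕ → Bool) → Bool :=
  List.rec (fun _ k => k 1 [])
    (fun P _ ih N k => frc (Nat.mod N 18000000000000000003) fun d =>
      Bool.rec
        (frc (Nat.div (Nat.sub 9000000000000000000 d) s) fun a => Bool.rec false
          (ih (Nat.div N 18000000000000000003) fun S Q =>
            (fun T => k T (Nat.add P (Nat.mul a T) :: Q)) (Nat.sub (Nat.mul 18000000000000000003 S) a))
          (Nat.ble a 100000000))
        (frc (Nat.div (Nat.sub d 9000000000000000000) s) fun a => Bool.rec false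
          (ih (Nat.div N 18000000000000000003) fun S Q =>
            (fun T => k T (Nat.sub P (Nat.mul a T) :: Q)) (Nat.add (Nat.mul 18000000000000000003 S) a))
          (Nat.ble a 100000000))
        (Nat.ble 9000000000000000000 d)) rows

def chol (f : ℕ) : List ℕ → Bool :=
  Nat.rec (fun rows => List.rec true (fun _ _ _ => false) rows) (fun _ ih rows => List.rec true (fun P rest _ =>
    frc (Nat.sub (Nat.mod P 18000000000000000003) 9000000000000000000) fun d =>
      frc (Nat.pred (nsq d 14 100000000)) fun s =>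
        Nat.ble 1 s && Nat.ble s 100000000 && Nat.ble (Nat.mul s s) d &&
          upd s rest (Nat.div P 18000000000000000003) fun _ Q => ih Q) rows) f

lemma upd_cons (s P : ℕ) (rest : List ℕ) (N : ℕ) (k : ℕ → List ℕ → Bool) : upd s (P :: rest) N k =
    frc (N % 18000000000000000003) fun d => Bool.rec
      (frc ((9000000000000000000 - d) / s) fun a => Bool.rec false
        (upd s rest (N / 18000000000000000003) fun S Q =>
          k (18000000000000000003 * S - a) ((P + a * (18000000000000000003 * S - a)) :: Q)) (Nat.ble a 100000000))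
      (frc ((d - 9000000000000000000) / s) fun a => Bool.rec false
        (upd s rest (N / 18000000000000000003) fun S Q =>
          k (18000000000000000003 * S + a) ((P - a * (18000000000000000003 * S + a)) :: Q)) (Nat.ble a 100000000))
      (Nat.ble 9000000000000000000 d) := rfl

lemma chol_cons (f P : ℕ) (rest : List ℕ) : chol (f + 1) (P :: rest) =
    frc (P % 18000000000000000003 - 9000000000000000000) fun d =>
      frc (Nat.pred (nsq d 14 100000000)) fun s =>
        Nat.ble 1 s && Nat.ble s 100000000 && Nat.ble (s * s) d &&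
          upd s rest (P / 18000000000000000003) fun _ Q => chol f Q := rfl

/-- Packed row with offset digits. -/
def pk : List ℤ → ℤ
  | [] => 0
  | d :: r => d + 9000000000000000000 + 18000000000000000003 * pk r

/-- Packed multipliers with a sentinel digit. -/
def pk1 : List ℤ → ℤ
  | [] => 1
  | l :: r => l + 18000000000000000003 * pk1 r

def dot : List ℤ → List ℝ → ℝ
  | d :: r, y :: ys => d * y + dot r ys
  | _, _ => 0

def QF : List (List ℤ) → List ℝ → ℝ
  | (d :: r) :: rs, y :: ys => d * y ^ 2 + 2 * y * dot r ys + QF rs ys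
  | _, _ => 0

def sub1 (l : ℤ) : List ℤ → List ℤ → List ℤ
  | d :: r, u :: us => (d - l * u) :: sub1 l r us
  | d :: r, [] => (d - l) :: r
  | [], _ => []

def updR : List ℤ → List (List ℤ) → List (List ℤ)
  | l :: ls, r :: rs => sub1 l r (l :: ls) :: updR ls rs
  | _, _ => []

def Shape : List (List ℤ) → Prop
  | [] => True
  | r :: rs => r.length = rs.length + 2 ∧ Shape rs

def Bd (b : ℤ) (r : List ℤ) : Prop := ∀ d ∈ r, |d| ≤ b

def Near (s : ℤ) : List ℤ → List ℤ → Prop
  | d :: r, l :: ls => |d - s * l| ≤ s ∧ Near s r ls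
  | _, _ => True

lemma pk_nonneg {r : List ℤ} {b : ℤ} (hb : b ≤ 9000000000000000000) (h : Bd b r) : 0 ≤ pk r := by
  induction r with
  | nil => simp [pk]
  | cons d r ih =>
    have h1 := abs_le.1 (h d (by simp))
    have h2 := ih fun x hx => h x (by simp [hx])
    simp only [pk]; omega

lemma pk1_pos {ls : List ℤ} (h : Bd 100000000 ls) : 1 ≤ pk1 ls := by
  induction ls with
  | nil => simp [pk1]
  | cons d r ih =>
    have h1 := abs_le.1 (h d (by simp))
    have h2 := ih fun x hx => h x (by simp [hx])
    simp only [pk1]; omega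

lemma pk_sub1 (l : ℤ) : ∀ (r us : List ℤ), r.length = us.length + 1 → pk (sub1 l r us) = pk r - l * pk1 us
  | d :: r, u :: us, h => by
    simp only [sub1, pk, pk1, pk_sub1 l r us (by simpa using h)]; ring
  | [d], [], _ => by simp only [sub1, pk, pk1]; ring
  | [], _, h => by simp at h
  | _ :: _ :: _, [], h => by simp at h

lemma len_sub1 (l : ℤ) : ∀ (r us : List ℤ), (sub1 l r us).length = r.length
  | d :: r, u :: us => by simp [sub1, len_sub1 l r us]
  | d :: r, [] => by simp [sub1]
  | [], _ => by simp [sub1]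

lemma bd_sub1 {l b : ℤ} (hl : |l| ≤ 100000000) : ∀ (r us : List ℤ), Bd b r → Bd 100000000 us →
    Bd (b + 10000000000000000) (sub1 l r us)
  | d :: r, u :: us, h, k => by
    intro x hx
    simp only [sub1, List.mem_cons] at hx
    rcases hx with rfl | hx
    · have h1 := h d (by simp)
      have h2 := k u (by simp)
      have h3 : |l * u| ≤ 100000000 * 100000000 := by
        rw [abs_mul]; exact mul_le_mul hl h2 (abs_nonneg _) (by norm_num)
      have := abs_sub d (l * u)
      omega
    · exact bd_sub1 hl r us (fun y hy => h y (by simp [hy])) (fun y hy => k y (by simp [hy])) x hx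
  | d :: r, [], h, _ => by
    intro x hx
    simp only [sub1, List.mem_cons] at hx
    rcases hx with rfl | hx
    · have h1 := h d (by simp)
      have := abs_sub d l
      omega
    · have := h x (by simp [hx]); omega
  | [], _, _, _ => by simp [sub1, Bd]

lemma dot_sub1 (l : ℤ) : ∀ (r us : List ℤ) (ys : List ℝ), r.length = us.length + 1 → ys.length = us.length →
    dot (sub1 l r us) ys = dot r ys - l * dot us ys
  | d :: r, u :: us, y :: ys, h, k => by
    simp only [sub1, dot, dot_sub1 l r us ys (by simpa using h) (by simpa using k)]; push_cast; ring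
  | d :: r, [], [], _, _ => by simp [sub1, dot]
  | [], _, _, h, _ => by simp at h
  | _ :: _, [], _ :: _, _, k => by simp at k
  | _ :: _, _ :: _, [], _, k => by simp at k

lemma qf_upd : ∀ (ls : List ℤ) (rs : List (List ℤ)) (ys : List ℝ), Shape rs → ls.length = rs.length →
    ys.length = rs.length → QF rs ys = QF (updR ls rs) ys + dot ls ys ^ 2
  | l :: ls, (d :: r) :: rs, y :: ys, h, k, j => by
    have k' : ls.length = rs.length := by simpa using k
    have j' : ys.length = rs.length := by simpa using j
    have h1 : r.length = ls.length + 1 := by have := h.1; simp at this; omega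
    simp only [updR, sub1, QF, dot, qf_upd ls rs ys h.2 k' j', dot_sub1 l r ls ys h1 (by omega)]
    push_cast; ring
  | _, [], ys, _, k, j => by
    rw [List.length_nil, List.length_eq_zero_iff] at k j
    subst k j; simp [QF, dot, updR]
  | _, [] :: _, _, h, _, _ => by have := h.1; simp at this
  | [], (_ :: _) :: _, _, _, k, _ => by simp at k
  | _ :: _, (_ :: _) :: _, [], _, _, j => by simp at j

lemma len_upd : ∀ (ls : List ℤ) (rs : List (List ℤ)), ls.length = rs.length → (updR ls rs).length = rs.length
  | l :: ls, r :: rs, h => by simp [updR, len_upd ls rs (by simpa using h)]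
  | [], [], _ => by simp [updR]
  | [], _ :: _, h => by simp at h
  | _ :: _, [], h => by simp at h

lemma shape_upd : ∀ (ls : List ℤ) (rs : List (List ℤ)), ls.length = rs.length → Shape rs → Shape (updR ls rs)
  | l :: ls, r :: rs, h, k => by
    refine ⟨?_, shape_upd ls rs (by simpa using h) k.2⟩
    rw [len_sub1, len_upd ls rs (by simpa using h), k.1]
  | [], [], _, _ => by simp [updR, Shape]
  | [], _ :: _, h, _ => by simp at h
  | _ :: _, [], h, _ => by simp at h

lemma bd_upd {b : ℤ} : ∀ (ls : List ℤ) (rs : List (List ℤ)), Bd 100000000 ls → (∀ r ∈ rs, Bd b r) →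
    ∀ r ∈ updR ls rs, Bd (b + 10000000000000000) r
  | l :: ls, r :: rs, h, k => by
    intro x hx
    simp only [updR, List.mem_cons] at hx
    rcases hx with rfl | hx
    · exact bd_sub1 (h l (by simp)) r _ (k r (by simp)) h
    · exact bd_upd ls rs (fun y hy => h y (by simp [hy])) (fun y hy => k y (by simp [hy])) x hx
  | [], _, _, _ => by simp [updR]
  | _ :: _, [], _, _ => by simp [updR]

lemma near_dot {s : ℤ} : ∀ (r ls : List ℤ) (ys : List ℝ), Near s r ls → r.length = ls.length + 1 →
    ys.length = ls.length → |dot r ys - s * dot ls ys| ≤ s * (ys.map fun y => |y|).sum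
  | d :: r, l :: ls, y :: ys, h, k, j => by
    have ih := near_dot r ls ys h.2 (by simpa using k) (by simpa using j)
    have h1 : |(d : ℝ) - s * l| ≤ s := by exact_mod_cast h.1
    have h2 : |((d : ℝ) - s * l) * y| ≤ s * |y| := by
      rw [abs_mul]; exact mul_le_mul_of_nonneg_right h1 (abs_nonneg _)
    have h3 := abs_add_le (((d : ℝ) - s * l) * y) (dot r ys - s * dot ls ys)
    simp only [dot, List.map_cons, List.sum_cons]
    calc _ = |((d : ℝ) - s * l) * y + (dot r ys - s * dot ls ys)| := by congr 1; ring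
      _ ≤ _ := by linarith
  | _ :: _, [], [], _, _, _ => by simp [dot]
  | [], _, _, _, k, _ => by simp at k
  | _ :: _, [], _ :: _, _, _, j => by simp at j
  | _ :: _, _ :: _, [], _, _, j => by simp at j

lemma dig {d : ℤ} {r : List ℤ} {b : ℤ} (hb : b ≤ 9000000000000000000) (h : Bd b (d :: r)) :
    (((pk (d :: r)).toNat % 18000000000000000003 : ℕ) : ℤ) = d + 9000000000000000000 ∧
      (pk (d :: r)).toNat / 18000000000000000003 = (pk r).toNat := by
  have h1 := abs_le.1 (h d (by simp))
  have h2 := pk_nonneg hb (r := r) fun x hx => h x (by simp [hx])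
  simp only [pk]; omega

lemma step {x y : Bool} {m n : ℕ} (h : (Bool.rec x y (Nat.ble m n) : Bool) = true) :
    (n < m ∧ x = true) ∨ (m ≤ n ∧ y = true) := by
  cases hc : Nat.ble m n
  · rw [hc] at h
    refine Or.inl ⟨?_, h⟩
    by_contra hh
    rw [Nat.ble_eq_true_of_le (by omega)] at hc; cases hc
  · rw [hc] at h; exact Or.inr ⟨Nat.le_of_ble_eq_true hc, h⟩

lemma upd_ok {s : ℕ} (hs : 1 ≤ s) {b : ℤ} (hb : b + 10000000000000000 ≤ 9000000000000000000) :
    ∀ (rs : List (List ℤ)) (ρ : List ℤ) (k : ℕ → List ℕ → Bool), Shape rs → ρ.length = rs.length + 1 → Bd b ρ →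
      (∀ r ∈ rs, Bd b r) → upd s (rs.map fun r => (pk r).toNat) (pk ρ).toNat k = true →
      ∃ ls : List ℤ, ls.length = rs.length ∧ Bd 100000000 ls ∧ Near s ρ ls ∧
        k (pk1 ls).toNat ((updR ls rs).map fun r => (pk r).toNat) = true := by
  intro rs
  induction rs with
  | nil => exact fun ρ k _ _ _ _ h => ⟨[], rfl, by simp [Bd], by cases ρ <;> simp [Near], h⟩
  | cons r rs ih =>
    intro ρ k hS hl hρ hr h
    obtain _ | ⟨d, ρ⟩ := ρ
    · simp at hl
    obtain ⟨e1, e2⟩ := dig (by omega) hρ
    have hd := abs_le.1 (hρ d (by simp))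
    have hρ' : Bd b ρ := fun x hx => hρ x (by simp [hx])
    have hr' : ∀ x ∈ rs, Bd b x := fun x hx => hr x (by simp [hx])
    have hP := pk_nonneg (by omega) (hr r (by simp))
    have fin : ∀ (l : ℤ) (ls : List ℤ), |l| ≤ 100000000 → ls.length = rs.length → Bd 100000000 ls →
        Bd 100000000 (l :: ls) ∧ pk (sub1 l r (l :: ls)) = pk r - l * pk1 (l :: ls) ∧
          0 ≤ pk (sub1 l r (l :: ls)) ∧ 1 ≤ pk1 ls ∧ 1 ≤ pk1 (l :: ls) := by
      intro l ls h1 h2 h3
      have h4 : Bd 100000000 (l :: ls) := by
        intro x hx; rcases List.mem_cons.1 hx with rfl | hx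
        · exact h1
        · exact h3 x hx
      exact ⟨h4, pk_sub1 l r _ (by rw [hS.1]; simp [h2]), pk_nonneg hb (bd_sub1 h1 r _ (hr r (by simp)) h4),
        pk1_pos h3, pk1_pos h4⟩
    rw [List.map_cons, upd_cons, e2] at h
    obtain ⟨D, hD0, h⟩ := frc_ex h
    rw [hD0] at e1
    rcases step h with ⟨hD, h⟩ | ⟨hD, h⟩
    · obtain ⟨a, ha, h⟩ := frc_ex h
      rcases step h with ⟨_, h⟩ | ⟨ha2, h⟩
      · exact absurd h Bool.false_ne_true
      obtain ⟨ls, l1, l2, l3, l4⟩ := ih ρ _ hS.2 (by simpa using hl) hρ' hr' h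
      obtain ⟨f1, f2, f3, f4, f5⟩ := fin (-a) ls (by rw [abs_le]; omega) l1 l2
      have m1 := Nat.div_add_mod (9000000000000000000 - D) s
      have m2 := Nat.mod_lt (9000000000000000000 - D) hs
      rw [ha] at m1
      refine ⟨-a :: ls, by simp [l1], f1, ⟨?_, l3⟩, ?_⟩
      · have : ((s * a : ℕ) : ℤ) = s * a := by push_cast; ring
        rw [abs_le, mul_neg]; omega
      · have t1 : (pk1 (-a :: ls)).toNat = 18000000000000000003 * (pk1 ls).toNat - a := by
          simp only [pk1]; omega
        have t2 : (pk (sub1 (-a) r (-a :: ls))).toNat = (pk r).toNat + a * (pk1 (-a :: ls)).toNat := by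
          have : ((a * (pk1 (-a :: ls)).toNat : ℕ) : ℤ) = a * pk1 (-a :: ls) := by
            push_cast; rw [Int.toNat_of_nonneg (by omega)]
          rw [neg_mul] at f2; omega
        simp only [updR, List.map_cons]
        rw [t2, t1]; exact l4
    · obtain ⟨a, ha, h⟩ := frc_ex h
      rcases step h with ⟨_, h⟩ | ⟨ha2, h⟩
      · exact absurd h Bool.false_ne_true
      obtain ⟨ls, l1, l2, l3, l4⟩ := ih ρ _ hS.2 (by simpa using hl) hρ' hr' h
      obtain ⟨f1, f2, f3, f4, f5⟩ := fin a ls (by rw [abs_le]; omega) l1 l2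
      have m1 := Nat.div_add_mod (D - 9000000000000000000) s
      have m2 := Nat.mod_lt (D - 9000000000000000000) hs
      rw [ha] at m1
      refine ⟨a :: ls, by simp [l1], f1, ⟨?_, l3⟩, ?_⟩
      · have : ((s * a : ℕ) : ℤ) = s * a := by push_cast; ring
        rw [abs_le]; omega
      · have t1 : (pk1 (a :: ls)).toNat = 18000000000000000003 * (pk1 ls).toNat + a := by
          simp only [pk1]; omega
        have t2 : (pk (sub1 a r (a :: ls))).toNat = (pk r).toNat - a * (pk1 (a :: ls)).toNat := by
          have : ((a * (pk1 (a :: ls)).toNat : ℕ) : ℤ) = a * pk1 (a :: ls) := by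
            push_cast; rw [Int.toNat_of_nonneg (by omega)]
          omega
        simp only [updR, List.map_cons]
        rw [t2, t1]; exact l4

theorem chol_ok : ∀ (f : ℕ) (rs : List (List ℤ)) (ys : List ℝ) (b : ℤ), Shape rs → ys.length = rs.length →
    b + f * 10000000000000000 ≤ 9000000000000000000 → (∀ r ∈ rs, Bd b r) →
    chol f (rs.map fun r => (pk r).toNat) = true → -100000000 * (ys.map fun y => |y|).sum ^ 2 ≤ QF rs ys := by
  have z : ∀ ys : List ℝ, ys.length = ([] : List (List ℤ)).length →
      -100000000 * (ys.map fun y => |y|).sum ^ 2 ≤ QF [] ys := by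
    intro ys j
    rw [List.length_nil, List.length_eq_zero_iff] at j; subst j; simp [QF]
  intro f
  induction f with
  | zero =>
    intro rs ys b hS j hb hr h
    obtain _ | ⟨r, rs⟩ := rs
    · exact z ys j
    · exact absurd h Bool.false_ne_true
  | succ f ihf =>
    intro rs ys b hS j hb hr h
    obtain _ | ⟨r, rs⟩ := rs
    · exact z ys j
    obtain _ | ⟨d, ρ⟩ := r
    · have := hS.1; simp at this
    obtain _ | ⟨y, ys⟩ := ys
    · simp at j
    have hb0 : 0 ≤ b := (abs_nonneg d).trans (hr (d :: ρ) (by simp) d (by simp))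
    push_cast at hb
    obtain ⟨e1, e2⟩ := dig (b := b) (by omega) (hr (d :: ρ) (by simp))
    rw [List.map_cons, chol_cons, e2] at h
    simp only [frc_eq, Bool.and_eq_true, Nat.ble_eq] at h
    generalize (pk (d :: ρ)).toNat % 18000000000000000003 = D at h e1
    generalize (nsq (D - 9000000000000000000) 14 100000000).pred = s at h
    obtain ⟨⟨⟨s1, s2⟩, s3⟩, h⟩ := h
    have hl : ρ.length = rs.length + 1 := by have := hS.1; simpa using this
    have j' : ys.length = rs.length := by simpa using j
    obtain ⟨ls, l1, l2, l3, l4⟩ := upd_ok s1 (b := b) (by omega) rs ρ _ hS.2 hl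
      (fun x hx => hr (d :: ρ) (by simp) x (by simp [hx])) (fun x hx => hr x (by simp [hx])) h
    have ih := ihf (updR ls rs) ys (b + 10000000000000000) (shape_upd ls rs l1 hS.2)
      (by rw [len_upd ls rs l1, j']) (by omega) (bd_upd ls rs l2 fun x hx => hr x (by simp [hx])) l4
    have q := qf_upd ls rs ys hS.2 l1 j'
    have n := near_dot ρ ls ys l3 (by omega) (by omega)
    have hd : ((s : ℤ) : ℝ) * (s : ℤ) ≤ d := by
      have h1 : 1 ≤ s * s := Nat.mul_pos s1 s1
      have : ((s * s : ℕ) : ℤ) ≤ d := by omega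
      exact_mod_cast this
    have s2' : ((s : ℤ) : ℝ) ≤ 100000000 := by exact_mod_cast s2
    have hσ : 0 ≤ (ys.map fun y => |y|).sum := List.sum_nonneg (by simp +contextual [abs_nonneg])
    simp only [QF, List.map_cons, List.sum_cons]
    generalize (ys.map fun y => |y|).sum = σ at *
    generalize dot ρ ys = u at *
    generalize dot ls ys = w at *
    generalize ((s : ℤ) : ℝ) = t at *
    have a1 : |y * (u - t * w)| ≤ |y| * (100000000 * σ) := by
      rw [abs_mul]
      exact mul_le_mul_of_nonneg_left (n.trans (mul_le_mul_of_nonneg_right s2' hσ)) (abs_nonneg _)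
    have a2 := neg_abs_le (y * (u - t * w))
    have a3 := sq_nonneg (t * y + w)
    have a4 := mul_nonneg (sub_nonneg.2 hd) (sq_nonneg y)
    have a5 := sq_nonneg |y|
    nlinarith

end Pool.Agent.Lib.MP_ae7657_co
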