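import Pool.Agent.Lib.MP_ae7657_co.Tab

/-! Fourier reduction over the cyclic group of order 69 with a reflection. -/

noncomputable section
namespace Pool.Agent.Lib.MP_ae7657_co
open Finset

abbrev Z := ZMod 69

def co (m : Z) : ℝ := (ZMod.stdAddChar m).re
def si (m : Z) : ℝ := (ZMod.stdAddChar m).im

lemma co_neg (a : Z) : co (-a) = co a := by simp [co, AddChar.map_neg_eq_conj]
lemma si_neg (a : Z) : si (-a) = -si a := by simp [si, AddChar.map_neg_eq_conj]
lemma co_sub (a b : Z) : co (a - b) = co a * co b + si a * si b := by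
  simp [co, si, sub_eq_add_neg, AddChar.map_add_eq_mul, AddChar.map_neg_eq_conj]
lemma si_sub (a b : Z) : si (a - b) = si a * co b - co a * si b := by
  simp [co, si, sub_eq_add_neg, AddChar.map_add_eq_mul, AddChar.map_neg_eq_conj]; ring

lemma orth (m : Z) : ∑ k : Z, co (k * m) = if m = 0 then 69 else 0 := by
  have h := congrArg Complex.re (AddChar.sum_mulShift m (ZMod.isPrimitive_stdAddChar 69))
  rw [Complex.re_sum] at h
  rw [show (∑ k : Z, co (k * m)) = _ from h]
  split_ifs <;> simp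

def Cf (f : Z → ℝ) (k : Z) : ℝ := ∑ t, f t * co (k * t)
def Sf (f : Z → ℝ) (k : Z) : ℝ := ∑ t, f t * si (k * t)

lemma fourier (f g : Z → ℝ) (s s' : Z) : 69 * ∑ t, f (t + s) * g (t + s') =
    ∑ k : Z, (co (k * (s' - s)) * (Cf f k * Cf g k + Sf f k * Sf g k) +
      si (k * (s' - s)) * (Cf f k * Sf g k - Sf f k * Cf g k)) := by
  have h : ∀ k : Z, co (k * (s' - s)) * (Cf f k * Cf g k + Sf f k * Sf g k) +
      si (k * (s' - s)) * (Cf f k * Sf g k - Sf f k * Cf g k) =
      ∑ u, ∑ u', f u * g u' * co (k * (u' - u - (s' - s))) := by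
    intro k
    simp only [Cf, Sf, sum_mul_sum]
    simp only [← sum_add_distrib, ← sum_sub_distrib, mul_sum]
    refine sum_congr rfl fun u _ => sum_congr rfl fun u' _ => ?_
    rw [mul_sub k (u' - u), co_sub, mul_sub k u', co_sub, si_sub]; ring
  simp only [h]
  rw [sum_comm, mul_sum, ← Equiv.sum_comp (Equiv.addRight s) fun u => ∑ k : Z, _]
  refine sum_congr rfl fun t _ => ?_
  rw [sum_comm]
  simp only [← mul_sum, orth, Equiv.coe_addRight]
  rw [sum_eq_single (t + s')]
  · rw [if_pos (by ring)]; ring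
  · intro u _ hu
    rw [if_neg fun h => hu (by linear_combination h), mul_zero]
  · simp

abbrev Rf := ℕ × Bool × ℕ
abbrev Ang := ℕ × Rf × Rf

def ang (y : ℕ → Bool → Z → ℝ) (r r' : Rf) : ℝ := ∑ t : Z, y r.1 r.2.1 (t + r.2.2) * y r'.1 r'.2.1 (t + r'.2.2)

def HH (l : List Ang) (y : ℕ → Bool → Z → ℝ) : ℝ := (l.map fun a => a.1 * ang y a.2.1 a.2.2).sum

def fa (k : Z) (P Q : ℕ → Bool → ℝ) (a : Ang) : ℝ :=
  a.1 * (co (k * (a.2.2.2.2 - a.2.1.2.2)) * (P a.2.1.1 a.2.1.2.1 * P a.2.2.1 a.2.2.2.1 + Q a.2.1.1 a.2.1.2.1 * Q a.2.2.1 a.2.2.2.1) +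
    si (k * (a.2.2.2.2 - a.2.1.2.2)) * (P a.2.1.1 a.2.1.2.1 * Q a.2.2.1 a.2.2.2.1 - Q a.2.1.1 a.2.1.2.1 * P a.2.2.1 a.2.2.2.1))

lemma HH_four (y : ℕ → Bool → Z → ℝ) : ∀ l : List Ang, 69 * HH l y =
    ∑ k : Z, (l.map (fa k (fun c b => Cf (y c b) k) fun c b => Sf (y c b) k)).sum
  | [] => by simp [HH]
  | a :: l => by
    have := HH_four y l
    simp only [HH, List.map_cons, List.sum_cons] at this ⊢
    rw [sum_add_distrib, ← this]
    simp only [fa]
    rw [← mul_sum, ← fourier, ang]; ring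

def sg (nf c : ℕ) (b : Bool) : ℝ := if c < nf then (if b then -1 else 1) else 0

def Pos (nf : ℕ) (l : List Ang) : Prop :=
  ∀ k < 35, ∀ v : ℕ → ℝ, 0 ≤ (l.map (fa (k : ℕ) (fun c _ => v (nf + c)) fun c b => sg nf c b * v c)).sum

lemma adm {nf : ℕ} {l : List Ang} (h : Pos nf l) (k : Z) (P Q : ℕ → Bool → ℝ) (hP : ∀ c, P c true = P c false)
    (hQ : ∀ c, Q c true = -Q c false) (hZ : ∀ c, nf ≤ c → Q c true = Q c false) : 0 ≤ (l.map (fa k P Q)).sum := by
  have base : ∀ j < 35, ∀ Q : ℕ → Bool → ℝ, (∀ c, Q c true = -Q c false) → (∀ c, nf ≤ c → Q c true = Q c false) →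
      0 ≤ (l.map (fa (j : ℕ) P Q)).sum := by
    intro j hj Q hQ hZ
    have := h j hj fun i => if i < nf then Q i false else P (i - nf) false
    refine this.trans_eq ?_
    congr 3
    · funext c b
      rw [if_neg (by omega), Nat.add_sub_cancel_left]; cases b <;> simp [hP]
    · funext c b
      unfold sg
      by_cases hc : c < nf
      · cases b <;> simp [hc, hQ]
      · have h1 := hZ c (by omega)
        have h2 := hQ c
        cases b <;> simp only [hc, if_false] <;> linarith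
  have hk := ZMod.val_lt k
  by_cases h1 : k.val < 35
  · simpa using base _ h1 Q hQ hZ
  · have := base (69 - k.val) (by omega) (fun c b => -Q c b) (fun c => by rw [hQ]) fun c hc => by rw [hZ c hc]
    refine this.trans_eq ?_
    congr 2
    funext a
    have e : ((69 - k.val : ℕ) : Z) = -k := by
      rw [Nat.cast_sub hk.le, ZMod.natCast_self, ZMod.natCast_zmod_val, zero_sub]
    simp only [fa, e, neg_mul, co_neg, si_neg]; ring

lemma HH_nonneg {nf : ℕ} {l : List Ang} (h : Pos nf l) (y : ℕ → Bool → Z → ℝ) (ε : ℝ) (hε : ε = 1 ∨ ε = -1)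
    (h1 : ∀ c t, y c true (-t) = ε * y c false t) (h2 : ∀ c, nf ≤ c → y c true = y c false) : 0 ≤ HH l y := by
  have hC : ∀ c k, Cf (y c true) k = ε * Cf (y c false) k := by
    intro c k
    rw [Cf, ← Equiv.sum_comp (Equiv.neg Z), Cf, mul_sum]
    simp only [Equiv.neg_apply, h1, mul_neg, co_neg, mul_assoc]
  have hS : ∀ c k, Sf (y c true) k = -ε * Sf (y c false) k := by
    intro c k
    rw [Sf, ← Equiv.sum_comp (Equiv.neg Z), Sf, mul_sum]
    simp only [Equiv.neg_apply, h1, mul_neg, si_neg, mul_assoc, neg_mul]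
  have : 0 ≤ 69 * HH l y := by
    rw [HH_four]
    refine sum_nonneg fun k _ => ?_
    rcases hε with rfl | rfl
    · exact adm h k _ _ (fun c => by simp [hC]) (fun c => by simp [hS]) fun c hc => by rw [h2 c hc]
    · have := adm h k (fun c b => Sf (y c b) k) (fun c b => -Cf (y c b) k) (fun c => by simp [hS])
        (fun c => by simp [hC]) fun c hc => by rw [h2 c hc]
      refine this.trans_eq ?_
      congr 2
      funext a
      simp only [fa]; ring
  linarith

def mir (r : Rf) : Rf := (r.1, !r.2.1, 68 * r.2.2)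

lemma ang_mir (x : ℕ → Bool → Z → ℝ) (r r' : Rf) : ang (fun c b t => x c (!b) (-t)) r r' = ang x (mir r) (mir r') := by
  have e : (68 : Z) = -1 := by decide
  rw [ang, ← Equiv.sum_comp (Equiv.neg Z), ang]
  refine sum_congr rfl fun t _ => ?_
  simp only [mir, Equiv.neg_apply, Nat.cast_mul, Nat.cast_ofNat, e]
  congr 2 <;> ring

theorem two_nonneg {nf : ℕ} {l : List Ang} (h : Pos nf l) (x : ℕ → Bool → Z → ℝ)
    (h2 : ∀ c, nf ≤ c → x c true = x c false) :
    0 ≤ (l.map fun a => a.1 * (ang x a.2.1 a.2.2 + ang x (mir a.2.1) (mir a.2.2))).sum := by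
  have a := HH_nonneg h (fun c b t => x c b t + x c (!b) (-t)) 1 (Or.inl rfl) (fun c t => by simp [add_comm])
    fun c hc => by simp [h2 c hc]
  have b := HH_nonneg h (fun c b t => x c b t - x c (!b) (-t)) (-1) (Or.inr rfl) (fun c t => by simp)
    fun c hc => by simp [h2 c hc]
  have e : ∀ l : List Ang, HH l (fun c b t => x c b t + x c (!b) (-t)) + HH l (fun c b t => x c b t - x c (!b) (-t)) =
      2 * (l.map fun a => a.1 * (ang x a.2.1 a.2.2 + ang x (mir a.2.1) (mir a.2.2))).sum := by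
    intro l
    induction l with
    | nil => simp [HH]
    | cons a l ih =>
      simp only [HH, List.map_cons, List.sum_cons] at ih ⊢
      have : ang (fun c b t => x c b t + x c (!b) (-t)) a.2.1 a.2.2 + ang (fun c b t => x c b t - x c (!b) (-t)) a.2.1 a.2.2 =
          2 * (ang x a.2.1 a.2.2 + ang x (mir a.2.1) (mir a.2.2)) := by
        rw [← ang_mir]
        simp only [ang, ← sum_add_distrib, mul_sum]
        exact sum_congr rfl fun t _ => by ring
      linear_combination ih + a.1 * this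
  linarith [e l]

def mk (p q d κ w : ℕ) : ℕ × En :=
  cond (Nat.beq p q) (p, 0, d, κ, 2 * w) (cond (Nat.ble p q) (p, q - p, d, κ, w) (q, p - q, d, κ, w))

lemma phi_mk (k : ℕ) (v : ℕ → ℝ) (p q d κ w : ℕ) :
    phi cs k v (mk p q d κ w) = 2 * w * cs (4 * (k * d % 69) + κ) * (v p * v q) := by
  have e : ∀ o w, idx k (o, d, κ, w) = 4 * (k * d % 69) + κ := fun _ _ => rfl
  have nb : ∀ {a b : ℕ}, a ≠ b → Nat.beq a b = false := fun h => by rwa [← Bool.not_eq_true, Nat.beq_eq]
  unfold mk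
  rcases lt_trichotomy p q with h | rfl | h
  · rw [nb h.ne, Nat.ble_eq_true_of_le h.le]
    simp only [cond, phi, e, mu, if_neg (show q - p ≠ 0 by omega), Nat.add_sub_cancel' h.le]; ring
  · simp only [Nat.beq_refl, cond, phi, e, mu, if_true, add_zero]; push_cast; ring
  · have : Nat.ble p q = false := by
      rw [← Bool.not_eq_true, Nat.ble_eq]; omega
    rw [nb h.ne', this]
    simp only [cond, phi, e, mu, if_neg (show p - q ≠ 0 by omega), Nat.add_sub_cancel' h.le]; ring

lemma zz4 (m : ℕ) : zz ^ (4 * m) = ZMod.stdAddChar (m : Z) := by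
  rw [ZMod.stdAddChar_apply, ZMod.toCircle_natCast, zz, ← Complex.exp_nat_mul]
  congr 1; push_cast; ring

lemma zz69 : zz ^ 69 = Complex.I := by
  rw [zz, ← Complex.exp_nat_mul]
  refine Eq.trans ?_ Complex.exp_pi_div_two_mul_I
  congr 1; push_cast; ring

lemma cs4 (m : ℕ) : cs (4 * m + 0) = co m ∧ cs (4 * m + 69) = -si m ∧ cs (4 * m + 138) = -co m ∧ cs (4 * m + 207) = si m := by
  have h2 : zz ^ 138 = -1 := by rw [show 138 = 69 * 2 from rfl, pow_mul, zz69, Complex.I_sq]
  have h3 : zz ^ 207 = -Complex.I := by rw [show 207 = 138 + 69 from rfl, pow_add, h2, zz69]; ring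
  simp [cs, co, si, pow_add, zz4, zz69, h2, h3]

def ent (nf : ℕ) (a : Ang) (l : List (ℕ × En)) : List (ℕ × En) :=
  (fun c c' d => mk (nf + c) (nf + c') d 0 a.1 ::
    (fun l => cond (Nat.blt c' nf) (mk (nf + c) c' d (cond a.2.2.2.1 69 207) a.1 :: l) l)
    (cond (Nat.blt c nf) (mk c (nf + c') d (cond a.2.1.2.1 207 69) a.1 ::
      cond (Nat.blt c' nf) (mk c c' d (cond (xor a.2.1.2.1 a.2.2.2.1) 138 0) a.1 :: l) l) l))
    a.2.1.1 a.2.2.1 ((a.2.2.2.2 + 68 * a.2.1.2.2) % 69)

lemma ent_sum (nf k : ℕ) (v : ℕ → ℝ) (a : Ang) (l : List (ℕ × En)) : ((ent nf a l).map (phi cs k v)).sum =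
    2 * fa (k : ℕ) (fun c _ => v (nf + c)) (fun c b => sg nf c b * v c) a + (l.map (phi cs k v)).sum := by
  obtain ⟨w, ⟨c, b, s⟩, c', b', s'⟩ := a
  obtain ⟨e0, e1, e2, e3⟩ := cs4 (k * ((s' + 68 * s) % 69) % 69)
  have e : ((k * ((s' + 68 * s) % 69) % 69 : ℕ) : Z) = k * (s' - s) := by
    have e : (68 : Z) = -1 := by decide
    rw [ZMod.natCast_mod, Nat.cast_mul, ZMod.natCast_mod]; push_cast; rw [e]; ring
  rw [e] at e0 e1 e2 e3
  have bl : ∀ c, Nat.blt c nf = decide (c < nf) := fun c => by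
    rw [Bool.eq_iff_iff, Nat.blt_eq, decide_eq_true_iff]
  by_cases h : c < nf <;> by_cases h' : c' < nf <;> cases b <;> cases b' <;>
    simp only [ent, fa, sg, bl, h, h', decide_true, decide_false, cond, xor, bne, List.map_cons, List.sum_cons, phi_mk,
      if_true, if_false, Bool.false_eq_true, e0, e1, e2, e3, beq_self_eq_true, Bool.not_true, Bool.not_false,
      Bool.false_beq, Bool.true_beq] <;> ring

def raw (nf : ℕ) (l : List Ang) : List (ℕ × En) := List.rec [] (fun a _ ih => ent nf a ih) l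

lemma raw_sum (nf k : ℕ) (v : ℕ → ℝ) : ∀ l : List Ang, ((raw nf l).map (phi cs k v)).sum =
    2 * (l.map (fa (k : ℕ) (fun c _ => v (nf + c)) fun c b => sg nf c b * v c)).sum
  | [] => by simp [raw]
  | a :: l => by
    rw [show raw nf (a :: l) = ent nf a (raw nf l) from rfl, ent_sum, raw_sum nf k v l]; simp; ring

def flt (f : ℕ → Bool) (l : List (ℕ × En)) : List (ℕ × En) := List.rec [] (fun h _ ih => cond (f h.1) (h :: ih) ih) l

def app (l m : List (ℕ × En)) : List (ℕ × En) := List.rec m (fun h _ ih => h :: ih) l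

def srt (n : ℕ) : ℕ → ℕ → List (ℕ × En) → List (ℕ × En) → List (ℕ × En) :=
  Nat.rec (fun _ _ l m => app l m) (fun _ ih lo hi l m =>
    ih lo ((lo + hi) / 2) (flt (fun i => Nat.blt i ((lo + hi) / 2)) l)
      (ih ((lo + hi) / 2) hi (flt (fun i => !Nat.blt i ((lo + hi) / 2)) l) m)) n

lemma srt_sum (g : ℕ × En → ℝ) : ∀ n lo hi l m, ((srt n lo hi l m).map g).sum = (l.map g).sum + (m.map g).sum := by
  have a : ∀ l m, ((app l m).map g).sum = (l.map g).sum + (m.map g).sum := by
    intro l m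
    induction l with
    | nil => simp [app]
    | cons h l ih => rw [show app (h :: l) m = h :: app l m from rfl]; simp only [List.map_cons, List.sum_cons, ih]; ring
  have b : ∀ f l, ((flt f l).map g).sum + ((flt (fun i => !f i) l).map g).sum = (l.map g).sum := by
    intro f l
    induction l with
    | nil => simp [flt]
    | cons h l ih =>
      have e : ∀ f, flt f (h :: l) = cond (f h.1) (h :: flt f l) (flt f l) := fun _ => rfl
      rw [e, e]
      cases f h.1 <;> simp only [cond, Bool.not_true, Bool.not_false, List.map_cons, List.sum_cons] <;> linarith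
  intro n
  induction n with
  | zero => exact fun _ _ => a
  | succ n ih =>
    intro lo hi l m
    rw [show srt (n + 1) lo hi l m = srt n lo ((lo + hi) / 2) (flt (fun i => Nat.blt i ((lo + hi) / 2)) l)
      (srt n ((lo + hi) / 2) hi (flt (fun i => !Nat.blt i ((lo + hi) / 2)) l) m) from rfl, ih, ih, ← add_assoc, b]

def eqL (l : List (ℕ × En)) : List (ℕ × En) → Bool :=
  List.rec (fun m => List.rec true (fun _ _ _ => false) m) (fun a _ ih m => List.rec false (fun b t _ =>
    Nat.beq a.1 b.1 && Nat.beq a.2.1 b.2.1 && Nat.beq a.2.2.1 b.2.2.1 && Nat.beq a.2.2.2.1 b.2.2.2.1 &&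
      Nat.beq a.2.2.2.2 b.2.2.2.2 && ih t) m) l

lemma eqL_eq : ∀ l m, eqL l m = true → l = m
  | [], [], _ => rfl
  | [], _ :: _, h => absurd h Bool.false_ne_true
  | _ :: _, [], h => absurd h Bool.false_ne_true
  | a :: l, b :: m, h => by
    have h : (Nat.beq a.1 b.1 && Nat.beq a.2.1 b.2.1 && Nat.beq a.2.2.1 b.2.2.1 && Nat.beq a.2.2.2.1 b.2.2.2.1 &&
      Nat.beq a.2.2.2.2 b.2.2.2.2 && eqL l m) = true := h
    simp only [Bool.and_eq_true, Nat.beq_eq] at h
    obtain ⟨⟨⟨⟨⟨h1, h2⟩, h3⟩, h4⟩, h5⟩, h6⟩ := h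
    rw [eqL_eq l m h6, Prod.ext h1 (Prod.ext h2 (Prod.ext h3 (Prod.ext h4 h5)))]

def okR (n : ℕ) (rs : List (List En)) : ℕ → Bool :=
  List.rec (fun _ => true) (fun es _ ih i => es.all (fun e => Nat.blt (i + e.1) n && Nat.ble e.2.2.1 207) && ih (i + 1)) rs

lemma okR_ok (n : ℕ) : ∀ rs i, okR n rs i = true → ∀ p ∈ flat i rs, p.1 + p.2.1 < n ∧ p.2.2.2.1 ≤ 207
  | [], _, _ => by simp [flat]
  | es :: rs, i, h => by
    have h : (es.all (fun e => Nat.blt (i + e.1) n && Nat.ble e.2.2.1 207) && okR n rs (i + 1)) = true := h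
    simp only [Bool.and_eq_true, List.all_eq_true, Nat.blt_eq, Nat.ble_eq] at h
    intro p hp
    rcases List.mem_append.1 hp with hp | hp
    · obtain ⟨e, he, rfl⟩ := List.mem_map.1 hp
      exact h.1 e he
    · exact okR_ok n rs _ h.2 p hp

lemma Wt_flat : ∀ rs i, Wt (flat i rs) = (rs.map wsum).sum
  | [], _ => rfl
  | es :: rs, i => by
    have := Wt_flat rs (i + 1)
    simp only [Wt] at this
    simp [Wt, flat, wsum, Function.comp_def, this]

theorem pos_of {nf : ℕ} {l : List Ang} {rs : List (List En)} {n : ℕ} (h0 : rs.length = n) (hn : n ≤ 330)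
    (h1 : okR n rs 0 = true) (h2 : (rs.map wsum).sum ≤ 4900000000)
    (h3 : eqL (srt 9 0 n (raw nf l) []) (flat 0 rs) = true) (h4 : ∀ k < 35, chol n (rowsN tb k rs) = true) : Pos nf l := by
  intro k hk v
  subst h0
  have a := psd tb_lt tb_near k rs hn (okR_ok _ rs 0 h1) (by rw [Wt_flat]; exact h2) (h4 k hk) v
  rw [← eqL_eq _ _ h3, srt_sum, raw_sum] at a
  simpa using a

def dec (f : ℕ) : ℕ → List En :=
  Nat.rec (fun _ => []) (fun _ ih n => Nat.rec [] (fun m _ =>
    (Nat.mod m.succ 512, Nat.mod (Nat.div m.succ 512) 128, Nat.mod (Nat.div m.succ 65536) 256,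
      Nat.mod (Nat.div m.succ 16777216) 16777216) :: ih (Nat.div m.succ 281474976710656)) n) f

end Pool.Agent.Lib.MP_ae7657_co
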