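import Pool.Agent.Lib.MP_ae7657_co.Data

/-! The graph on 483 vertices, and the counting argument. -/

noncomputable section
namespace Pool.Agent.Lib.MP_ae7657_co
open Finset

def xs (u : ℕ) : ℕ := Nat.shiftRight 158458742917061674072128159745 (16 * (u / 69)) % 65536 * 71 ^ u
def ys (u : ℕ) : ℕ := Nat.shiftRight 950743994855617111927625875458 (16 * (u / 69)) % 65536 * 238 ^ u

def DD (u v : ℕ) : ZMod 277 := xs u * ys v - xs v * ys u

def Ad (u v : ℕ) : Prop := DD u v ^ 46 = 1

def adjB (u v : ℕ) : Bool := Nat.beq (((xs u * ys v + 276 * (xs v * ys u)) % 277) ^ 46 % 277) 1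

lemma adjB_ok {u v : ℕ} (h : adjB u v = true) : Ad u v := by
  have h1 := congrArg (Nat.cast : ℕ → ZMod 277) (Nat.eq_of_beq_eq_true h)
  have e : (276 : ZMod 277) = -1 := by decide +kernel
  rw [ZMod.natCast_mod, Nat.cast_pow, ZMod.natCast_mod] at h1
  push_cast at h1
  rw [Ad, DD, ← h1, e]; ring

def sh (u n : ℕ) : ℕ := 69 * (u / 69) + (u + n) % 69

lemma DD_sh (u v n : ℕ) : DD (sh u n) (sh v n) = DD u v := by
  have a : (71 : ZMod 277) ^ 69 = 1 := by decide +kernel
  have b : (238 : ZMod 277) ^ 69 = 1 := by decide +kernel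
  have c : (71 : ZMod 277) ^ n * 238 ^ n = 1 := by rw [← mul_pow, show (71 : ZMod 277) * 238 = 1 by decide +kernel, one_pow]
  have d : ∀ u, sh u n / 69 = u / 69 := fun u => by unfold sh; omega
  have p : ∀ (x : ZMod 277) (u : ℕ), x ^ 69 = 1 → x ^ sh u n = x ^ u * x ^ n := fun x u h => by
    rw [← pow_add, pow_eq_pow_mod _ h, pow_eq_pow_mod (u + n) h]; congr 1; unfold sh; omega
  simp only [DD, xs, ys, d, Nat.cast_mul, Nat.cast_pow, Nat.cast_ofNat, p _ _ a, p _ _ b]
  generalize ((Nat.shiftRight 158458742917061674072128159745 (16 * (u / 69)) % 65536 : ℕ) : ZMod 277) = x1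
  generalize ((Nat.shiftRight 158458742917061674072128159745 (16 * (v / 69)) % 65536 : ℕ) : ZMod 277) = x2
  generalize ((Nat.shiftRight 950743994855617111927625875458 (16 * (u / 69)) % 65536 : ℕ) : ZMod 277) = y1
  generalize ((Nat.shiftRight 950743994855617111927625875458 (16 * (v / 69)) % 65536 : ℕ) : ZMod 277) = y2
  linear_combination (x1 * 71 ^ u * (y2 * 238 ^ v) - x2 * 71 ^ v * (y1 * 238 ^ u)) * c

lemma Ad_symm {u v : ℕ} (h : Ad u v) : Ad v u := by
  have : DD v u = -DD u v := by unfold DD; ring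
  rw [Ad, this, Even.neg_pow (by decide), h]

lemma Ad_irr (u : ℕ) : ¬Ad u u := by
  have : DD u u = 0 := by unfold DD; ring
  rw [Ad, this]; decide +kernel

lemma sumfree {a b : ZMod 277} (ha : a ^ 46 = 1) (hb : b ^ 46 = 1) : (a + b) ^ 46 ≠ 1 := by
  have h : ∀ c : ZMod 277, c ^ 46 = 1 → (1 + c) ^ 46 ≠ 1 := by decide +kernel
  intro hc
  have e : (a ^ 45) ^ 46 = 1 := by rw [← pow_mul, mul_comm, pow_mul, ha, one_pow]
  refine h (b * a ^ 45) (by rw [mul_pow, hb, e, one_mul]) ?_
  rw [show 1 + b * a ^ 45 = (a + b) * a ^ 45 by linear_combination -ha, mul_pow, hc, e, one_mul]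

lemma noK4 {a b c d : ℕ} (h1 : Ad a b) (h2 : Ad a c) (h3 : Ad a d) (h4 : Ad b c) (h5 : Ad b d) (h6 : Ad c d) : False := by
  refine sumfree (a := DD a b * DD c d) (b := DD a d * DD b c) (by rw [mul_pow, h1, h6, one_mul])
    (by rw [mul_pow, h3, h4, one_mul]) ?_
  rw [show DD a b * DD c d + DD a d * DD b c = DD a c * DD b d by unfold DD; ring, mul_pow, h2, h5, one_mul]

def ix (c : ℕ) (b : Bool) : ℕ := Nat.shiftRight edN (18 * cond (b && Nat.blt c 136) (2 * c + 1) (2 * c))
def p1 (r : Rf) : ℕ := sh (ix r.1 r.2.1 % 512) r.2.2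
def p2 (r : Rf) : ℕ := sh (ix r.1 r.2.1 / 512 % 512) r.2.2

def xe (X : ℕ → ℕ → ℝ) (c : ℕ) (b : Bool) (t : Z) : ℝ := X (sh (ix c b % 512) t.val) (sh (ix c b / 512 % 512) t.val)

lemma xe_sh (X : ℕ → ℕ → ℝ) (r : Rf) (t : Z) : xe X r.1 r.2.1 (t + r.2.2) = X (sh (p1 r) t.val) (sh (p2 r) t.val) := by
  have : ∀ u, sh u (t + r.2.2).val = sh (sh u r.2.2) t.val := fun u => by
    rw [ZMod.val_add, ZMod.val_natCast]; unfold sh; omega
  rw [xe, this, this, p1, p2]

def sE (a b c d : ℕ) : Bool := Nat.beq a c && Nat.beq b d || Nat.beq a d && Nat.beq b c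

def triB (r1 r2 r3 : Rf) : Bool :=
  frc (p1 r1) fun u => frc (p2 r1) fun v => frc (p1 r2) fun a => frc (p2 r2) fun b => frc (p1 r3) fun c => frc (p2 r3) fun d =>
    frc ((a + b + c + d - u - v) / 2) fun w => (sE a b u w && sE c d v w || sE a b v w && sE c d u w) &&
      Nat.blt u 483 && Nat.blt v 483 && Nat.blt w 483 && adjB u v && adjB u w && adjB v w

def Good (X : ℕ → ℕ → ℝ) : Prop := (∀ u v, X u v = X v u) ∧ (∀ u v, X u v * X u v = 1) ∧
  ∀ u < 483, ∀ v < 483, ∀ w < 483, Ad u v → Ad u w → Ad v w → X u v * X u w + X u v * X v w + X u w * X v w ≤ -1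

lemma tri_ok {X : ℕ → ℕ → ℝ} (hX : Good X) {r1 r2 r3 : Rf} (h : triB r1 r2 r3 = true) :
    ang (xe X) r1 r2 + ang (xe X) r1 r3 + ang (xe X) r2 r3 ≤ -69 := by
  simp only [triB, frc_eq, Bool.and_eq_true, Bool.or_eq_true, Nat.blt_eq] at h
  simp only [ang, xe_sh, ← sum_add_distrib]
  generalize (p1 r2 + p2 r2 + p1 r3 + p2 r3 - p1 r1 - p2 r1) / 2 = w at h
  obtain ⟨⟨⟨⟨⟨⟨h0, h1⟩, h2⟩, h3⟩, h4⟩, h5⟩, h6⟩ := h
  have s : ∀ {a b c d : ℕ} (n : ℕ), sE a b c d = true → X (sh a n) (sh b n) = X (sh c n) (sh d n) := by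
    intro a b c d n h
    simp only [sE, Bool.and_eq_true, Bool.or_eq_true, Nat.beq_eq] at h
    rcases h with ⟨rfl, rfl⟩ | ⟨rfl, rfl⟩
    · rfl
    · exact hX.1 _ _
  have l : ∀ u n, u < 483 → sh u n < 483 := fun u n h => by unfold sh; omega
  have a : ∀ {u v : ℕ} (n : ℕ), adjB u v = true → Ad (sh u n) (sh v n) := fun n h => by
    rw [Ad, DD_sh]; exact adjB_ok h
  refine (sum_le_card_nsmul _ _ (-1) fun t _ => ?_).trans (by simp)
  have := hX.2.2 _ (l _ t.val h1) _ (l _ t.val h2) _ (l _ t.val h3) (a _ h4) (a _ h5) (a _ h6)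
  rcases h0 with ⟨e1, e2⟩ | ⟨e1, e2⟩ <;> rw [s _ e1, s _ e2] <;> linarith

def rf (m : ℕ) : Rf := (m % 256, Nat.beq (m / 256 % 2) 1, m / 512 % 128)

def dg (l : List ℕ) : ℕ → List Ang := List.rec (fun _ => []) (fun d _ ih i => (d, (i, false, 0), (i, false, 0)) :: ih (i + 1)) l

def angs (T : List ℕ) (m : List Ang) : List Ang :=
  List.rec m (fun n _ ih => (n % 16777216, rf (n / 16777216), rf (n / 1099511627776)) ::
    (n % 16777216, rf (n / 16777216), rf (n / 72057594037927936)) ::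
    (n % 16777216, rf (n / 1099511627776), rf (n / 72057594037927936)) :: ih) T

def okT (n : ℕ) : Bool := triB (rf (n / 16777216)) (rf (n / 1099511627776)) (rf (n / 72057594037927936)) &&
  triB (mir (rf (n / 16777216))) (mir (rf (n / 1099511627776))) (mir (rf (n / 72057594037927936)))

theorem no_good (h1 : Pos 136 (angs triL (dg dgL 0))) (h2 : triL.all okT = true)
    (h3 : dgL.sum < (triL.map (· % 16777216)).sum) (X : ℕ → ℕ → ℝ) : ¬Good X := by
  intro hX
  have a := two_nonneg h1 (xe X) fun c hc => by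
    have : Nat.blt c 136 = false := by rw [← Bool.not_eq_true, Nat.blt_eq]; omega
    funext t; simp only [xe, ix, this, Bool.and_false]
  have q : ∀ r, ang (xe X) r r = 69 := fun r => by simp [ang, xe, hX.2.1]
  have b : ∀ l i, ((dg l i).map fun a => a.1 * (ang (xe X) a.2.1 a.2.2 + ang (xe X) (mir a.2.1) (mir a.2.2))).sum =
      138 * (l.sum : ℕ) := by
    intro l
    induction l with
    | nil => simp [dg]
    | cons d l ih =>
      intro i
      rw [show dg (d :: l) i = (d, (i, false, 0), (i, false, 0)) :: dg l (i + 1) from rfl]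
      simp only [List.map_cons, List.sum_cons, ih, q]; push_cast; ring
  have c : ∀ T m, T.all okT = true →
      ((angs T m).map fun a => a.1 * (ang (xe X) a.2.1 a.2.2 + ang (xe X) (mir a.2.1) (mir a.2.2))).sum ≤
      (m.map fun a => a.1 * (ang (xe X) a.2.1 a.2.2 + ang (xe X) (mir a.2.1) (mir a.2.2))).sum -
        138 * ((T.map (· % 16777216)).sum : ℕ) := by
    intro T m
    induction T with
    | nil => simp [angs]
    | cons n T ih =>
      intro h
      rw [List.all_cons, Bool.and_eq_true, okT, Bool.and_eq_true] at h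
      have ih := ih h.2
      have t1 := tri_ok hX h.1.1
      have t2 := tri_ok hX h.1.2
      rw [show angs (n :: T) m = (n % 16777216, rf (n / 16777216), rf (n / 1099511627776)) ::
        (n % 16777216, rf (n / 16777216), rf (n / 72057594037927936)) ::
        (n % 16777216, rf (n / 1099511627776), rf (n / 72057594037927936)) :: angs T m from rfl]
      simp only [List.map_cons, List.sum_cons, Nat.cast_add]
      have := mul_le_mul_of_nonneg_left (add_le_add t1 t2) (Nat.cast_nonneg (α := ℝ) (n % 16777216))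
      linarith
  have d := c triL (dg dgL 0) h2
  have e : ((dgL.sum : ℕ) : ℝ) < ((triL.map (· % 16777216)).sum : ℕ) := by exact_mod_cast h3
  rw [b] at d
  linarith

lemma chkT : triL.all okT = true := by decide +kernel

lemma chkW : dgL.sum < (triL.map (· % 16777216)).sum := by decide +kernel

lemma chkL : rowsE.length = 316 := by decide +kernel

lemma chkR : okR 316 rowsE 0 = true := by decide +kernel

lemma chkS : (rowsE.map wsum).sum ≤ 4900000000 := by decide +kernel

lemma chkE : eqL (srt 9 0 316 (raw 136 (angs triL (dg dgL 0))) []) (flat 0 rowsE) = true := by decide +kernel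

end Pool.Agent.Lib.MP_ae7657_co
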