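import Pool.Agent.Lib.MP_ae7657_co.Graph
import Pool.Agent.Lib.MP_ae7657_co.Blk0
import Pool.Agent.Lib.MP_ae7657_co.Blk1
import Pool.Agent.Lib.MP_ae7657_co.Blk2
import Pool.Agent.Lib.MP_ae7657_co.Blk3
import Pool.Agent.Lib.MP_ae7657_co.Blk4

/-! A `K₄`-free graph on 483 vertices arrowing `(3,3)`. -/

namespace Pool.Agent.Lib.MP_ae7657_co

theorem blocks : ∀ k < 35, chol 316 (rowsN tb k rowsE) = true := by
  intro k hk
  interval_cases k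
  exacts [blk0, blk1, blk2, blk3, blk4, blk5, blk6, blk7, blk8, blk9, blk10, blk11, blk12, blk13, blk14, blk15, blk16, blk17, blk18, blk19, blk20, blk21, blk22, blk23, blk24, blk25, blk26, blk27, blk28, blk29, blk30, blk31, blk32, blk33, blk34]

def GG : SimpleGraph (Fin 483) where
  Adj u v := Ad u v
  symm := ⟨fun _ _ => Ad_symm⟩
  loopless := ⟨fun u => Ad_irr u⟩

theorem GG_free : GG.CliqueFree 4 := by
  by_contra h
  have f := SimpleGraph.topEmbeddingOfNotCliqueFree h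
  have a : ∀ i j : Fin 4, i ≠ j → Ad (f i) (f j) := fun i j hij => f.map_rel_iff.2 hij
  exact noK4 (a 0 1 (by decide)) (a 0 2 (by decide)) (a 0 3 (by decide)) (a 1 2 (by decide)) (a 1 3 (by decide))
    (a 2 3 (by decide))

theorem GG_arrow (c : Sym2 (Fin 483) → Fin 2) : ∃ x y z, GG.Adj x y ∧ GG.Adj y z ∧ GG.Adj x z ∧
    c s(x, y) = c s(y, z) ∧ c s(y, z) = c s(x, z) := by
  by_contra h
  refine no_good (pos_of chkL (by norm_num) chkR chkS chkE blocks) chkT chkW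
    (fun u v => if c s(Fin.ofNat 483 u, Fin.ofNat 483 v) = 0 then 1 else -1) ⟨fun u v => by beta_reduce; rw [Sym2.eq_swap], fun u v => ?_, ?_⟩
  · beta_reduce; split_ifs <;> norm_num
  · intro u hu v hv w hw h1 h2 h3
    have e : ∀ {u : ℕ} (hu : u < 483), Fin.ofNat 483 u = ⟨u, hu⟩ := fun hu => Fin.ext (Nat.mod_eq_of_lt hu)
    simp only [e hu, e hv, e hw]
    have k : ¬(c s(⟨u, hu⟩, ⟨v, hv⟩) = c s(⟨v, hv⟩, ⟨w, hw⟩) ∧ c s(⟨v, hv⟩, ⟨w, hw⟩) = c s(⟨u, hu⟩, ⟨w, hw⟩)) :=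
      fun k => h ⟨⟨u, hu⟩, ⟨v, hv⟩, ⟨w, hw⟩, h1, h3, h2, k⟩
    generalize c s(⟨u, hu⟩, ⟨v, hv⟩) = p at k ⊢
    generalize c s(⟨v, hv⟩, ⟨w, hw⟩) = q at k ⊢
    generalize c s(⟨u, hu⟩, ⟨w, hw⟩) = r at k ⊢
    fin_cases p <;> fin_cases q <;> fin_cases r <;> simp at k ⊢

end Pool.Agent.Lib.MP_ae7657_co
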