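import Pool.Agent.Lib.MP_ae7657_co.Chol

/-! Rows of the Fourier blocks assembled from sparse entries, and positivity from the checker. -/

noncomputable section
namespace Pool.Agent.Lib.MP_ae7657_co
open Finset

abbrev En := ℕ × ℕ × ℕ × ℕ

def addAt : ℕ → ℤ → List ℤ → List ℤ
  | _, _, [] => []
  | 0, a, x :: r => (x + a) :: r
  | o + 1, a, x :: r => x :: addAt o a r

def vs (v : ℕ → ℝ) : ℕ → ℕ → List ℝ
  | 0, _ => []
  | n + 1, i => v i :: vs v n (i + 1)

def rowQ : List ℤ → List ℝ → ℝ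
  | d :: r, y :: ys => d * y ^ 2 + 2 * y * dot r ys
  | _, _ => 0

lemma len_addAt : ∀ (o : ℕ) (a : ℤ) (r : List ℤ), (addAt o a r).length = r.length
  | _, _, [] => by simp [addAt]
  | 0, _, _ :: _ => by simp [addAt]
  | o + 1, a, _ :: r => by simp [addAt, len_addAt o a r]

lemma pk_addAt : ∀ (o : ℕ) (a : ℤ) (r : List ℤ), o < r.length →
    pk (addAt o a r) = pk r + a * 18000000000000000003 ^ o
  | _, _, [], h => by simp at h
  | 0, a, x :: r, _ => by simp only [addAt, pk]; ring
  | o + 1, a, x :: r, h => by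
    simp only [addAt, pk, pk_addAt o a r (by simpa using h)]; ring

lemma bd_addAt {b : ℤ} : ∀ (o : ℕ) (a : ℤ) (r : List ℤ), Bd b r → Bd (b + |a|) (addAt o a r)
  | _, _, [], _ => by simp [addAt, Bd]
  | 0, a, x :: r, h => by
    intro y hy
    have := abs_nonneg a
    rcases List.mem_cons.1 hy with rfl | hy
    · have := h x (by simp); have := abs_add_le x a; omega
    · have := h y (by simp [hy]); omega
  | o + 1, a, x :: r, h => by
    intro y hy
    have := abs_nonneg a
    rcases List.mem_cons.1 hy with rfl | hy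
    · have := h y (by simp); omega
    · exact bd_addAt o a r (fun z hz => h z (by simp [hz])) y hy

lemma dot_addAt (v : ℕ → ℝ) : ∀ (o : ℕ) (a : ℤ) (r : List ℤ) (n i : ℕ), o < r.length → o < n →
    dot (addAt o a r) (vs v n i) = dot r (vs v n i) + a * v (i + o)
  | _, _, [], _, _, h, _ => by simp at h
  | _, _, _ :: _, 0, _, _, h => by simp at h
  | 0, a, x :: r, n + 1, i, _, _ => by simp only [addAt, vs, dot, add_zero]; push_cast; ring
  | o + 1, a, x :: r, n + 1, i, h, k => by
    simp only [addAt, vs, dot, dot_addAt v o a r n (i + 1) (by simpa using h) (by omega)]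
    rw [show i + 1 + o = i + (o + 1) by ring]; ring

def mu (o : ℕ) : ℝ := if o = 0 then 1 else 2

lemma rq_addAt (v : ℕ → ℝ) : ∀ (o : ℕ) (a : ℤ) (r : List ℤ) (n i : ℕ), o < r.length → o ≤ n →
    rowQ (addAt o a r) (vs v (n + 1) i) = rowQ r (vs v (n + 1) i) + mu o * a * (v i * v (i + o))
  | _, _, [], _, _, h, _ => by simp at h
  | 0, a, x :: r, n, i, _, _ => by simp only [addAt, vs, rowQ, mu, add_zero, if_true]; push_cast; ring
  | o + 1, a, x :: r, n, i, h, k => by
    simp only [addAt, vs, rowQ, mu, dot_addAt v o a r n (i + 1) (by simpa using h) (by omega)]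
    rw [show i + 1 + o = i + (o + 1) by ring, if_neg (by omega)]; ring

lemma dot_zero : ∀ (m : ℕ) (ys : List ℝ), dot (List.replicate m 0) ys = 0
  | 0, _ => by simp [dot]
  | _ + 1, [] => by simp [dot, List.replicate_succ]
  | m + 1, y :: ys => by simp [dot, List.replicate_succ, dot_zero m ys]

def idx (k : ℕ) (e : En) : ℕ := Nat.add (Nat.mul 4 (Nat.mod (Nat.mul k e.2.1) 69)) e.2.2.1

def tv (τ : ℕ → ℕ) (k : ℕ) (e : En) : ℤ := e.2.2.2 * ((τ (idx k e) : ℤ) - 1000000000)

def rowZ (τ : ℕ → ℕ) (k n : ℕ) : List En → List ℤ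
  | [] => -100000000000 :: List.replicate (n + 1) 0
  | e :: es => addAt e.1 (tv τ k e) (rowZ τ k n es)

def rowsZ (τ : ℕ → ℕ) (k : ℕ) : List (List En) → List (List ℤ)
  | [] => []
  | es :: rs => rowZ τ k rs.length es :: rowsZ τ k rs

def rowN (τ : ℕ → ℕ) (k O : ℕ) (es : List En) : ℕ :=
  List.rec O (fun e _ acc => Nat.sub (Nat.add acc (Nat.mul (Nat.mul e.2.2.2 (τ (idx k e))) (Nat.pow 18000000000000000003 e.1)))
    (Nat.mul (Nat.mul e.2.2.2 1000000000) (Nat.pow 18000000000000000003 e.1))) es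

def gN (rows : List (List En)) : ℕ :=
  List.rec 9000000000000000000 (fun _ _ g => Nat.add 9000000000000000000 (Nat.mul 18000000000000000003 g)) rows

def rowsN (τ : ℕ → ℕ) (k : ℕ) (rows : List (List En)) : List ℕ :=
  List.rec [] (fun es rest ih => rowN τ k (Nat.add 8999999900000000000 (Nat.mul 18000000000000000003 (gN rest))) es :: ih) rows

def flat : ℕ → List (List En) → List (ℕ × En)
  | _, [] => []
  | i, es :: rs => es.map (fun e => (i, e)) ++ flat (i + 1) rs

def wsum (es : List En) : ℕ := (es.map fun e => e.2.2.2).sum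

lemma len_rowZ (τ : ℕ → ℕ) (k n : ℕ) : ∀ es, (rowZ τ k n es).length = n + 2
  | [] => by simp [rowZ]
  | e :: es => by rw [rowZ, len_addAt, len_rowZ τ k n es]

lemma len_rowsZ (τ : ℕ → ℕ) (k : ℕ) : ∀ rs, (rowsZ τ k rs).length = rs.length
  | [] => rfl
  | _ :: rs => by simp [rowsZ, len_rowsZ τ k rs]

lemma shape_rowsZ (τ : ℕ → ℕ) (k : ℕ) : ∀ rs, Shape (rowsZ τ k rs)
  | [] => trivial
  | es :: rs => ⟨by rw [len_rowZ, len_rowsZ], shape_rowsZ τ k rs⟩

lemma bd_mono {b c : ℤ} {r : List ℤ} (h : Bd b r) (k : b ≤ c) : Bd c r := fun d hd => (h d hd).trans k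

lemma bd_rowZ {τ : ℕ → ℕ} (hτ : ∀ n, τ n < 2147483648) (k n : ℕ) :
    ∀ es, Bd (100000000000 + 1150000000 * wsum es) (rowZ τ k n es)
  | [] => by
    intro d hd
    rcases List.mem_cons.1 hd with rfl | hd
    · simp [wsum]
    · rw [List.eq_of_mem_replicate hd]; simp [wsum]
  | e :: es => by
    refine bd_mono (bd_addAt _ _ _ (bd_rowZ hτ k n es)) ?_
    have h1 := hτ (idx k e)
    have h2 : |tv τ k e| ≤ e.2.2.2 * 1150000000 := by
      rw [tv, abs_mul, Nat.abs_cast]
      exact mul_le_mul_of_nonneg_left (by rw [abs_le]; omega) (by positivity)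
    simp only [wsum, List.map_cons, List.sum_cons] at *
    push_cast at *; omega

lemma gN_eq : ∀ rows : List (List En), (gN rows : ℤ) = pk (List.replicate (rows.length + 1) 0)
  | [] => by simp [gN, pk]
  | es :: rs => by
    have h : gN (es :: rs) = 9000000000000000000 + 18000000000000000003 * gN rs := rfl
    rw [h, List.length_cons, List.replicate_succ, pk, ← gN_eq rs]; push_cast; ring

lemma rowN_eq {τ : ℕ → ℕ} (hτ : ∀ n, τ n < 2147483648) (k : ℕ) (rs : List (List En)) :
    ∀ es : List En, (∀ e ∈ es, e.1 ≤ rs.length) → wsum es ≤ 4900000000 →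
      rowN τ k (8999999900000000000 + 18000000000000000003 * gN rs) es = (pk (rowZ τ k rs.length es)).toNat := by
  intro es
  induction es with
  | nil =>
    intro _ _
    have h : rowN τ k (8999999900000000000 + 18000000000000000003 * gN rs) [] =
      8999999900000000000 + 18000000000000000003 * gN rs := rfl
    rw [h, rowZ, pk, ← gN_eq]; omega
  | cons e es ih =>
    intro h1 h2
    have h : ∀ O, rowN τ k O (e :: es) = rowN τ k O es + e.2.2.2 * τ (idx k e) * 18000000000000000003 ^ e.1 -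
      e.2.2.2 * 1000000000 * 18000000000000000003 ^ e.1 := fun _ => rfl
    have w1 : wsum es ≤ 4900000000 := by simp only [wsum, List.map_cons, List.sum_cons] at *; omega
    have p0 := pk_nonneg (by omega) (bd_rowZ hτ k rs.length es)
    rw [h, ih (fun x hx => h1 x (by simp [hx])) w1, rowZ,
      pk_addAt _ _ _ (by rw [len_rowZ]; have := h1 e (by simp); omega), tv]
    have e1 : ((e.2.2.2 * τ (idx k e) * 18000000000000000003 ^ e.1 : ℕ) : ℤ) -
        ((e.2.2.2 * 1000000000 * 18000000000000000003 ^ e.1 : ℕ) : ℤ) =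
        e.2.2.2 * ((τ (idx k e) : ℤ) - 1000000000) * 18000000000000000003 ^ e.1 := by push_cast; ring
    rw [← e1]
    generalize e.2.2.2 * τ (idx k e) * 18000000000000000003 ^ e.1 = A
    generalize e.2.2.2 * 1000000000 * 18000000000000000003 ^ e.1 = C
    omega

lemma rq_rowZ (τ : ℕ → ℕ) (k n i : ℕ) (v : ℕ → ℝ) : ∀ es : List En, (∀ e ∈ es, e.1 ≤ n) →
    rowQ (rowZ τ k n es) (vs v (n + 1) i) =
      (es.map fun e => mu e.1 * tv τ k e * (v i * v (i + e.1))).sum - 100000000000 * v i ^ 2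
  | [], _ => by simp [rowZ, vs, rowQ, dot_zero]
  | e :: es, h => by
    have h1 := h e (by simp)
    rw [rowZ, rq_addAt v _ _ _ _ _ (by rw [len_rowZ]; omega) h1, rq_rowZ τ k n i v es fun x hx => h x (by simp [hx])]
    simp only [List.map_cons, List.sum_cons]; ring

def Wt (l : List (ℕ × En)) : ℕ := (l.map fun p => p.2.2.2.2).sum

lemma rows_main {τ : ℕ → ℕ} (hτ : ∀ n, τ n < 2147483648) (k : ℕ) (v : ℕ → ℝ) :
    ∀ (rs : List (List En)) (i : ℕ), (∀ p ∈ flat i rs, p.1 + p.2.1 < i + rs.length) → Wt (flat i rs) ≤ 4900000000 →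
      rowsN τ k rs = (rowsZ τ k rs).map (fun r => (pk r).toNat) ∧
      (∀ r ∈ rowsZ τ k rs, Bd 5700000000000000000 r) ∧
      QF (rowsZ τ k rs) (vs v rs.length i) =
        ((flat i rs).map fun p => mu p.2.1 * tv τ k p.2 * (v p.1 * v (p.1 + p.2.1))).sum -
          100000000000 * ((vs v rs.length i).map fun y => y ^ 2).sum := by
  intro rs
  induction rs with
  | nil => intro i _ _; simp [rowsN, rowsZ, QF, flat, vs]
  | cons es rs ih =>
    intro i h1 h2
    have w : Wt (flat i (es :: rs)) = wsum es + Wt (flat (i + 1) rs) := by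
      simp [Wt, flat, wsum, Function.comp_def]
    have o1 : ∀ e ∈ es, e.1 ≤ rs.length := by
      intro e he
      have := h1 (i, e) (by simp [flat, he])
      simp at this; omega
    obtain ⟨i1, i2, i3⟩ := ih (i + 1) (fun p hp => by
      have := h1 p (by simp [flat, hp]); simp at this; omega) (by omega)
    have h : rowsN τ k (es :: rs) =
      rowN τ k (8999999900000000000 + 18000000000000000003 * gN rs) es :: rowsN τ k rs := rfl
    refine ⟨by rw [h, rowN_eq hτ k rs es o1 (by omega), i1]; rfl, ?_, ?_⟩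
    · intro r hr
      rcases List.mem_cons.1 hr with rfl | hr
      · exact bd_mono (bd_rowZ hτ k _ es) (by omega)
      · exact i2 r hr
    · have q := rq_rowZ τ k rs.length i v es o1
      have l := len_rowZ τ k rs.length es
      simp only [rowsZ, List.length_cons, vs, flat, List.map_append, List.sum_append, List.map_map, List.map_cons,
        List.sum_cons, Function.comp_def] at q ⊢
      generalize rowZ τ k rs.length es = r at q l ⊢
      obtain _ | ⟨d, ρ⟩ := r
      · simp at l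
      · simp only [QF, rowQ] at q ⊢
        rw [i3, q]; ring

lemma vs_sum (v : ℕ → ℝ) (f : ℝ → ℝ) : ∀ n i, ((vs v n i).map f).sum = ∑ j ∈ range n, f (v (i + j))
  | 0, _ => by simp [vs]
  | n + 1, i => by
    rw [vs, List.map_cons, List.sum_cons, vs_sum v f n, sum_range_succ', add_comm]
    simp only [add_assoc, add_comm 1, add_zero]

lemma len_vs (v : ℕ → ℝ) : ∀ n i, (vs v n i).length = n
  | 0, _ => rfl
  | n + 1, i => by simp [vs, len_vs v n]

def phi (R : ℕ → ℝ) (k : ℕ) (v : ℕ → ℝ) (p : ℕ × En) : ℝ :=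
  mu p.2.1 * (p.2.2.2.2 * R (idx k p.2)) * (v p.1 * v (p.1 + p.2.1))

theorem psd {τ : ℕ → ℕ} {R : ℕ → ℝ} (hτ : ∀ n, τ n < 2147483648)
    (hR : ∀ n < 480, |(τ n : ℝ) - 1000000000 - 1000000000 * R n| ≤ 3) (k : ℕ) (rs : List (List En))
    (h0 : rs.length ≤ 330) (h1 : ∀ p ∈ flat 0 rs, p.1 + p.2.1 < rs.length ∧ p.2.2.2.1 ≤ 207)
    (h2 : Wt (flat 0 rs) ≤ 4900000000) (h3 : chol rs.length (rowsN τ k rs) = true) (v : ℕ → ℝ) :
    0 ≤ ((flat 0 rs).map (phi R k v)).sum := by
  obtain ⟨i1, i2, i3⟩ := rows_main hτ k v rs 0 (fun p hp => by simpa using (h1 p hp).1) h2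
  have c := chol_ok rs.length (rowsZ τ k rs) (vs v rs.length 0) _ (shape_rowsZ τ k rs)
    (by rw [len_vs, len_rowsZ]) (by omega) i2 (i1 ▸ h3)
  rw [i3, vs_sum, vs_sum] at c
  simp only [zero_add] at c
  have cs := sq_sum_le_card_mul_sum_sq (s := range rs.length) (f := fun j => |v j|)
  simp only [sq_abs, card_range] at cs
  set N := ∑ j ∈ range rs.length, v j ^ 2 with hN
  have N0 : 0 ≤ N := sum_nonneg fun _ _ => sq_nonneg _
  have hv : ∀ j < rs.length, v j ^ 2 ≤ N := fun j hj =>
    single_le_sum (f := fun j => v j ^ 2) (fun _ _ => sq_nonneg _) (mem_range.2 hj)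
  have key : ∀ l : List (ℕ × En), (∀ p ∈ l, p.1 + p.2.1 < rs.length ∧ p.2.2.2.1 ≤ 207) →
      (l.map fun p => mu p.2.1 * tv τ k p.2 * (v p.1 * v (p.1 + p.2.1))).sum ≤
        1000000000 * (l.map (phi R k v)).sum + 6 * Wt l * N := by
    intro l
    induction l with
    | nil => simp [Wt]
    | cons p l ih =>
      intro h
      have ih := ih fun x hx => h x (by simp [hx])
      obtain ⟨a1, a2⟩ := h p (by simp)
      have a3 : idx k p.2 < 480 := by
        have : idx k p.2 = 4 * (k * p.2.2.1 % 69) + p.2.2.2.1 := rfl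
        omega
      have a4 := hR _ a3
      have a5 : |v p.1 * v (p.1 + p.2.1)| ≤ N := by
        have := hv p.1 (by omega); have := hv _ a1
        rw [abs_le]; constructor <;> nlinarith [sq_nonneg (v p.1 - v (p.1 + p.2.1)), sq_nonneg (v p.1 + v (p.1 + p.2.1))]
      have a6 : 0 ≤ mu p.2.1 ∧ mu p.2.1 ≤ 2 := by unfold mu; split_ifs <;> norm_num
      have a7 : |((τ (idx k p.2) : ℝ) - 1000000000 - 1000000000 * R (idx k p.2)) * (v p.1 * v (p.1 + p.2.1))| ≤ 3 * N := by
        rw [abs_mul]; exact mul_le_mul a4 a5 (abs_nonneg _) (by norm_num)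
      have a8 : (0 : ℝ) ≤ p.2.2.2.2 := Nat.cast_nonneg _
      have a10 := mul_le_mul_of_nonneg_left (mul_le_mul_of_nonneg_left ((le_abs_self _).trans a7) a8) a6.1
      have a11 := mul_le_mul_of_nonneg_right a6.2 (mul_nonneg a8 (by positivity : 0 ≤ 3 * N))
      simp only [Wt, List.map_cons, List.sum_cons, phi, tv] at ih ⊢
      push_cast at ih ⊢
      linarith
  have k1 := key _ h1
  have w : (Wt (flat 0 rs) : ℝ) ≤ 4900000000 := by exact_mod_cast h2
  have l : (rs.length : ℝ) ≤ 330 := by exact_mod_cast h0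
  nlinarith [mul_le_mul_of_nonneg_right w N0, mul_le_mul_of_nonneg_right l N0]

end Pool.Agent.Lib.MP_ae7657_co
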